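import Pool.Agent.MWGQ.Stmts

/-!
# Row SA2 of the table mwgq (the word `w0 n τ m true true`, level 2)
-/

namespace Pool.Agent.MWGQ.H1

open Pool.Agent.Helper14_MV Pool.Agent.Helper2_MV
open Pool.Agent.MWK (pre)
open Pool.Agent.MWGN (Nm WC WT Tau Ns nl sg nn N1 N2 K0 Kb Kc T2)

theorem sa2_cnt0 {f : ℕ → List ℕ} {c : ℕ} {τ : List ℕ} (h : ∀ i ∈ τ, c ∉ f i) :
    (τ.flatMap f).count c = 0 := by
  apply List.count_eq_zero.2
  intro hm
  obtain ⟨i, hi, hc⟩ := List.mem_flatMap.1 hm
  exact h i hi hc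

theorem sa2_cnt1 {f : ℕ → List ℕ} {c j : ℕ} : ∀ {τ : List ℕ}, τ.Nodup → j ∈ τ →
    (∀ i ∈ τ, i ≠ j → c ∉ f i) → (τ.flatMap f).count c = (f j).count c := by
  intro τ
  induction τ with
  | nil => intro _ h; exact absurd h (List.not_mem_nil)
  | cons a τ ih =>
    intro hn hj h
    rw [List.nodup_cons] at hn
    rw [List.flatMap_cons, List.count_append]
    by_cases hja : a = j
    · subst hja
      rw [sa2_cnt0 (fun i hi => h i (List.mem_cons_of_mem _ hi) (fun e => hn.1 (e ▸ hi)))]
      rfl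
    · have h1 : j ∈ τ := by
        rcases List.mem_cons.1 hj with h2 | h2
        · exact absurd h2.symm hja
        · exact h2
      rw [ih hn.2 h1 (fun i hi => h i (List.mem_cons_of_mem _ hi)),
        List.count_eq_zero.2 (h a List.mem_cons_self hja), Nat.zero_add]

theorem sa2_pw (k c : ℕ) : pw k [c] = List.replicate k c := by
  unfold pw
  simp

theorem sa2_mem_bd {n : ℕ} {L C : ℕ → ℕ} {k c : ℕ} (h : c ∈ bd n (sg L) (sg C) k) :
    ∃ i, i < k ∧ (c = L i ∨ c = C i) := by
  unfold bd at h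
  obtain ⟨i, hi, hc⟩ := List.mem_flatMap.1 h
  refine ⟨i, List.mem_range.1 hi, ?_⟩
  unfold sg at hc
  rw [sa2_pw] at hc
  rcases List.mem_append.1 hc with h1 | h1
  · exact Or.inl (List.mem_singleton.1 h1)
  · exact Or.inr (List.eq_of_mem_replicate h1)

theorem sa2_bd_zero {n : ℕ} {L C : ℕ → ℕ} {k c : ℕ} (h : ∀ i < k, c ≠ L i ∧ c ≠ C i) :
    (bd n (sg L) (sg C) k).count c = 0 := by
  apply List.count_eq_zero.2
  intro hm
  obtain ⟨i, hi, h1 | h1⟩ := sa2_mem_bd hm
  · exact (h i hi).1 h1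
  · exact (h i hi).2 h1

theorem sa2_bd_L {n : ℕ} {L C : ℕ → ℕ} {k i : ℕ} (hi : i < k)
    (hL : ∀ j, j ≠ i → L i ≠ L j) (hC : ∀ j, L i ≠ C j) :
    (bd n (sg L) (sg C) k).count (L i) = 1 := by
  unfold bd
  rw [sa2_cnt1 (j := i) (List.nodup_range) (List.mem_range.2 hi)]
  · unfold sg
    rw [sa2_pw, List.count_append, List.count_replicate]
    have h1 := hC i
    simp [Ne.symm h1]
  · intro j _ hj hm
    unfold sg at hm
    rw [sa2_pw] at hm
    rcases List.mem_append.1 hm with h1 | h1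
    · exact hL j hj (List.mem_singleton.1 h1)
    · exact hC j (List.eq_of_mem_replicate h1)

theorem sa2_bd_C {n : ℕ} {L C : ℕ → ℕ} {k i : ℕ} (hi : i < k)
    (hC : ∀ j, j ≠ i → C i ≠ C j) (hL : ∀ j, C i ≠ L j) :
    (bd n (sg L) (sg C) k).count (C i) = n + 1 := by
  unfold bd
  rw [sa2_cnt1 (j := i) (List.nodup_range) (List.mem_range.2 hi)]
  · unfold sg
    rw [sa2_pw, List.count_append, List.count_replicate]
    have h1 := hL i
    simp [Ne.symm h1]
  · intro j _ hj hm
    unfold sg at hm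
    rw [sa2_pw] at hm
    rcases List.mem_append.1 hm with h1 | h1
    · exact hL j (List.mem_singleton.1 h1)
    · exact hC j hj (List.eq_of_mem_replicate h1)

/-- the part in front of `S m` (level 1) -/
def sP (n m : ℕ) (τ1 : List ℕ) : List ℕ :=
  [0, 1, 2, 0] ++ (bd n (sg N1.L) (sg N1.C) m ++ ([N1.L m, N1.L (m + 1), 1, 3] ++
    τ1.flatMap (fun i => [N1.S i, N1.L i])))

/-- the part between `bd` of level 2 and `4` -/
def sQ (m : ℕ) (τ2 : List ℕ) : List ℕ :=
  (N2 m).L (m + 1) :: N1.L (m + 1) :: τ2.flatMap (fun i => [N1.S i, N1.L i])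

/-- the tails of level 2 -/
def sE (m : ℕ) (τ : List ℕ) : List ℕ := τ.flatMap (fun i => (N2 m).S i :: T2 m i)

theorem sa2_word {n m : ℕ} {τ τ1 τ2 : List ℕ} (h : τ = τ1 ++ m :: τ2) (h1 : m ∉ τ1)
    (h2 : m ∉ τ2) : w0 n τ m true true = sP n m τ1 ++ (N1.S m :: N1.L m ::
      (bd n (sg (N2 m).L) (sg (N2 m).C) (m + 1) ++ (sQ m τ2 ++ 4 :: sE m τ))) := by
  have e1 : ∀ σ : List ℕ, m ∉ σ → σ.flatMap (fun i => N1.S i :: T1 n m i) =
      σ.flatMap (fun i => [N1.S i, N1.L i]) := by
    intro σ hσ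
    induction σ with
    | nil => rfl
    | cons a σ ih =>
      rw [List.mem_cons, not_or] at hσ
      rw [List.flatMap_cons, List.flatMap_cons, ih hσ.2]
      unfold T1
      rw [if_neg (fun e => hσ.1 e.symm)]
  have e2 : τ.flatMap (fun i => N1.S i :: T1 n m i) = τ1.flatMap (fun i => [N1.S i, N1.L i]) ++
      (N1.S m :: N1.L m :: (bd n (sg (N2 m).L) (sg (N2 m).C) (m + 1) ++ sQ m τ2)) := by
    rw [h, List.flatMap_append, List.flatMap_cons, e1 τ1 h1, e1 τ2 h2]
    congr 1
    unfold T1 sQ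
    rw [if_pos rfl]
    simp
  unfold w0 ww
  rw [e2]
  unfold sP sE
  simp

theorem sa2_memP {n m c : ℕ} {τ1 : List ℕ} (h : c ∈ sP n m τ1) :
    c ≤ 3 ∨ (∃ i, i < m ∧ (c = 6 + 6 * i ∨ c = 7 + 6 * i)) ∨ c = 6 + 6 * m ∨
      c = 6 + 6 * (m + 1) ∨ ∃ i ∈ τ1, (c = 5 + 6 * i ∨ c = 6 + 6 * i) := by
  unfold sP at h
  rcases List.mem_append.1 h with h1 | h1
  · left
    simp only [List.mem_cons, List.not_mem_nil, or_false] at h1
    omega
  rcases List.mem_append.1 h1 with h2 | h2
  · right; left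
    exact sa2_mem_bd h2
  rcases List.mem_append.1 h2 with h3 | h3
  · simp only [List.mem_cons, List.not_mem_nil, or_false, N1] at h3
    omega
  · obtain ⟨i, hi, hc⟩ := List.mem_flatMap.1 h3
    right; right; right; right
    refine ⟨i, hi, ?_⟩
    simpa only [List.mem_cons, List.not_mem_nil, or_false, N1] using hc

theorem sa2_memF {c : ℕ} {σ : List ℕ} (h : c ∈ σ.flatMap (fun i => [N1.S i, N1.L i])) :
    ∃ i ∈ σ, (c = 5 + 6 * i ∨ c = 6 + 6 * i) := by
  obtain ⟨i, hi, hc⟩ := List.mem_flatMap.1 h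
  refine ⟨i, hi, ?_⟩
  simpa only [List.mem_cons, List.not_mem_nil, or_false, N1] using hc

theorem sa2_memE {m i c : ℕ} (h : c ∈ (N2 m).S i :: T2 m i) :
    c = 8 + 6 * i ∨ c = 9 + 6 * i ∨ (i = m ∧ c = 9 + 6 * (m + 1)) := by
  rcases List.mem_cons.1 h with h1 | h1
  · exact Or.inl h1
  · unfold T2 at h1
    split_ifs at h1 with h2
    · subst h2
      simp only [List.mem_cons, List.not_mem_nil, or_false, N2] at h1
      omega
    · simp only [List.mem_cons, List.not_mem_nil, or_false, N2] at h1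
      omega

theorem sa2_cntE {m i : ℕ} (hi : i ≤ m) : ((N2 m).S i :: T2 m i).count (9 + 6 * i) = 1 := by
  unfold T2
  split_ifs with h2
  · subst h2
    simp only [N2, List.count_cons, List.count_nil, beq_iff_eq]
    split_ifs <;> omega
  · simp only [N2, List.count_cons, List.count_nil, beq_iff_eq]
    split_ifs <;> omega

theorem sa2_cntE' {m : ℕ} : ((N2 m).S m :: T2 m m).count (9 + 6 * (m + 1)) = 1 := by
  unfold T2
  rw [if_pos rfl]
  simp only [N2, List.count_cons, List.count_nil, beq_iff_eq]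
  split_ifs <;> omega

theorem sa2_cntS {m i : ℕ} : ((N2 m).S i :: T2 m i).count (8 + 6 * i) = 1 := by
  unfold T2
  split_ifs with h2
  · subst h2
    simp only [N2, List.count_cons, List.count_nil, beq_iff_eq]
    split_ifs <;> omega
  · simp only [N2, List.count_cons, List.count_nil, beq_iff_eq]
    split_ifs <;> omega

theorem sa2 (h1 : MWGN.PrfStmt) (_h2 : PrbStmt) : Sa2Stmt := by
  intro n hn τ m hτ
  obtain ⟨hnd, hmem⟩ := hτ
  have hmτ : m ∈ τ := (hmem m).2 le_rfl
  obtain ⟨τ2, hτ2⟩ := MWK.mem_split hmτ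
  obtain ⟨τ1, hτ1⟩ : ∃ τ1, τ1 = pre τ m := ⟨_, rfl⟩
  rw [← hτ1] at hτ2
  have hd := hnd
  rw [hτ2, List.nodup_append] at hd
  obtain ⟨hd1, hd2, hd3⟩ := hd
  rw [List.nodup_cons] at hd2
  have hm1 : m ∉ τ1 := fun hm => hd3 m hm m List.mem_cons_self rfl
  have hm2 : m ∉ τ2 := hd2.1
  have hs1 : ∀ i ∈ τ1, i < m := by
    intro i hi
    have : i ∈ τ := by rw [hτ2]; exact List.mem_append_left _ hi
    have h3 := (hmem i).1 this
    rcases Nat.lt_or_ge i m with h4 | h4
    · exact h4
    · exfalso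
      have : i = m := by omega
      subst this
      exact hm1 hi
  have hs2 : ∀ i ∈ τ2, i < m := by
    intro i hi
    have : i ∈ τ := by rw [hτ2]; exact List.mem_append_right _ (List.mem_cons_of_mem _ hi)
    have h3 := (hmem i).1 this
    rcases Nat.lt_or_ge i m with h4 | h4
    · exact h4
    · exfalso
      have : i = m := by omega
      subst this
      exact hm2 hi
  have hw := sa2_word (n := n) hτ2 hm1 hm2
  obtain ⟨P, hP⟩ : ∃ P, P = sP n m τ1 := ⟨_, rfl⟩
  obtain ⟨B, hB⟩ : ∃ B, B = bd n (sg (N2 m).L) (sg (N2 m).C) (m + 1) := ⟨_, rfl⟩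
  obtain ⟨Q, hQ⟩ : ∃ Q, Q = sQ m τ2 := ⟨_, rfl⟩
  obtain ⟨E, hE⟩ : ∃ E, E = sE m τ := ⟨_, rfl⟩
  obtain ⟨W, hW⟩ : ∃ W, W = w0 n τ m true true := ⟨_, rfl⟩
  rw [← hP, ← hB, ← hQ, ← hE, ← hW] at hw
  rw [← hW]
  have hw' : W = P ++ ((5 + 6 * m) :: (6 + 6 * m) :: (B ++ (Q ++ 4 :: E))) := hw
  -- letters of the parts
  have mP : ∀ c, c ∈ P → c ≤ 3 ∨ (∃ i, i < m ∧ (c = 6 + 6 * i ∨ c = 7 + 6 * i)) ∨
      c = 6 + 6 * m ∨ c = 6 + 6 * (m + 1) ∨ ∃ i, i < m ∧ (c = 5 + 6 * i ∨ c = 6 + 6 * i) := by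
    intro c hc
    rw [hP] at hc
    rcases sa2_memP hc with h | h | h | h | ⟨i, hi, h⟩
    · exact Or.inl h
    · exact Or.inr (Or.inl h)
    · exact Or.inr (Or.inr (Or.inl h))
    · exact Or.inr (Or.inr (Or.inr (Or.inl h)))
    · exact Or.inr (Or.inr (Or.inr (Or.inr ⟨i, hs1 i hi, h⟩)))
  have mB : ∀ c, c ∈ B → ∃ i, i < m + 1 ∧ (c = 9 + 6 * i ∨ c = 10 + 6 * i) := by
    intro c hc
    rw [hB] at hc
    exact sa2_mem_bd hc
  have mQ : ∀ c, c ∈ Q → c = 9 + 6 * (m + 1) ∨ c = 6 + 6 * (m + 1) ∨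
      ∃ i, i < m ∧ (c = 5 + 6 * i ∨ c = 6 + 6 * i) := by
    intro c hc
    rw [hQ] at hc
    unfold sQ at hc
    rcases List.mem_cons.1 hc with h | h
    · exact Or.inl h
    rcases List.mem_cons.1 h with h | h
    · exact Or.inr (Or.inl h)
    · obtain ⟨i, hi, h⟩ := sa2_memF h
      exact Or.inr (Or.inr ⟨i, hs2 i hi, h⟩)
  have mE : ∀ c, c ∈ E → ∃ i, i ≤ m ∧ (c = 8 + 6 * i ∨ c = 9 + 6 * i ∨
      (i = m ∧ c = 9 + 6 * (m + 1))) := by
    intro c hc
    rw [hE] at hc
    unfold sE at hc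
    obtain ⟨i, hi, hc⟩ := List.mem_flatMap.1 hc
    exact ⟨i, (hmem i).1 hi, sa2_memE hc⟩
  -- counts in `P`
  have zP : ∀ c, c = 4 ∨ c = 5 + 6 * m ∨ (∃ i, c = 8 + 6 * i ∨ c = 9 + 6 * i ∨ c = 10 + 6 * i) →
      c ∉ P := by
    intro c hc hm
    rcases mP c hm with h | ⟨i, hi, h⟩ | h | h | ⟨i, hi, h⟩ <;>
      rcases hc with hc | hc | ⟨j, hc⟩ <;> omega
  have cP1 : P.count (6 + 6 * m) = 1 := by
    rw [hP]
    unfold sP
    rw [List.count_append, List.count_append, List.count_append,
      sa2_bd_zero (by intro i hi; simp only [N1]; omega),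
      sa2_cnt0 (by
        intro i hi hm
        have := hs1 i hi
        simp only [List.mem_cons, List.not_mem_nil, or_false, N1] at hm
        omega)]
    simp only [N1, List.count_cons, List.count_nil, beq_iff_eq]
    split_ifs <;> omega
  have cP2 : P.count (6 + 6 * (m + 1)) = 1 := by
    rw [hP]
    unfold sP
    rw [List.count_append, List.count_append, List.count_append,
      sa2_bd_zero (by intro i hi; simp only [N1]; omega),
      sa2_cnt0 (by
        intro i hi hm
        have := hs1 i hi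
        simp only [List.mem_cons, List.not_mem_nil, or_false, N1] at hm
        omega)]
    simp only [N1, List.count_cons, List.count_nil, beq_iff_eq]
    split_ifs <;> first | omega | (exfalso; assumption)
  -- counts in `B`
  have zB : ∀ c, c = 4 ∨ c = 9 + 6 * (m + 1) ∨
      (∃ i, c = 5 + 6 * i ∨ c = 6 + 6 * i ∨ c = 8 + 6 * i) → c ∉ B := by
    intro c hc hm
    rcases mB c hm with ⟨i, hi, h⟩
    rcases hc with hc | hc | ⟨j, hc⟩ <;> omega
  have cBL : ∀ k i, i < k → (bd n (sg (N2 m).L) (sg (N2 m).C) k).count (9 + 6 * i) = 1 := by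
    intro k i hi
    exact sa2_bd_L (L := (N2 m).L) (C := (N2 m).C) hi (by intro j hj; simp only [N2]; omega)
      (by intro j; simp only [N2]; omega)
  have cBC : ∀ k i, i < k → (bd n (sg (N2 m).L) (sg (N2 m).C) k).count (10 + 6 * i) = n + 1 := by
    intro k i hi
    exact sa2_bd_C (L := (N2 m).L) (C := (N2 m).C) hi (by intro j hj; simp only [N2]; omega)
      (by intro j; simp only [N2]; omega)
  have cBC0 : ∀ k i, k ≤ i → (bd n (sg (N2 m).L) (sg (N2 m).C) k).count (10 + 6 * i) = 0 := by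
    intro k i hi
    exact sa2_bd_zero (by intro j hj; simp only [N2]; omega)
  have cB0 : ∀ k i, (bd n (sg (N2 m).L) (sg (N2 m).C) k).count (6 + 6 * i) = 0 := by
    intro k i
    exact sa2_bd_zero (by intro j hj; simp only [N2]; omega)
  -- counts in `Q`
  have zQ : ∀ c, c = 4 ∨ c = 5 + 6 * m ∨ c = 6 + 6 * m ∨
      (∃ i, i ≤ m ∧ c = 9 + 6 * i) ∨ (∃ i, c = 8 + 6 * i ∨ c = 10 + 6 * i) → c ∉ Q := by
    intro c hc hm
    rcases mQ c hm with h | h | ⟨i, hi, h⟩ <;>
      rcases hc with hc | hc | hc | ⟨j, hj, hc⟩ | ⟨j, hc⟩ <;> omega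
  have cQ1 : Q.count (6 + 6 * (m + 1)) = 1 := by
    rw [hQ]
    unfold sQ
    rw [List.count_cons, List.count_cons, sa2_cnt0 (by
        intro i hi hm
        have := hs2 i hi
        simp only [List.mem_cons, List.not_mem_nil, or_false, N1] at hm
        omega)]
    simp only [N1, N2, beq_iff_eq]
    split_ifs <;> omega
  have cQ2 : Q.count (9 + 6 * (m + 1)) = 1 := by
    rw [hQ]
    unfold sQ
    rw [List.count_cons, List.count_cons, sa2_cnt0 (by
        intro i hi hm
        have := hs2 i hi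
        simp only [List.mem_cons, List.not_mem_nil, or_false, N1] at hm
        omega)]
    simp only [N1, N2, beq_iff_eq]
    split_ifs <;> omega
  -- counts in `E`
  have zE : ∀ c, c = 4 ∨ (∃ i, c = 5 + 6 * i ∨ c = 6 + 6 * i ∨ c = 10 + 6 * i) → c ∉ E := by
    intro c hc hm
    rcases mE c hm with ⟨i, hi, h⟩
    rcases hc with hc | ⟨j, hc⟩ <;> omega
  have cEL : ∀ σ : List ℕ, σ.Nodup → ∀ i, i ∈ σ → (∀ j ∈ σ, j ≤ m) →
      (σ.flatMap (fun i => (N2 m).S i :: T2 m i)).count (9 + 6 * i) = 1 := by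
    intro σ hσ i hi hσm
    rw [sa2_cnt1 (j := i) hσ hi]
    · exact sa2_cntE (hσm i hi)
    · intro j hj hji hm
      have h3 := hσm i hi
      have h4 := hσm j hj
      have h5 := sa2_memE hm
      omega
  have cEL' : E.count (9 + 6 * (m + 1)) = 1 := by
    rw [hE]
    unfold sE
    rw [sa2_cnt1 (j := m) hnd hmτ]
    · exact sa2_cntE'
    · intro j hj hji hm
      have h4 := (hmem j).1 hj
      have h5 := sa2_memE hm
      omega
  have cES : ∀ i, i ≤ m → E.count (8 + 6 * i) = 1 := by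
    intro i hi
    rw [hE]
    unfold sE
    rw [sa2_cnt1 (j := i) hnd ((hmem i).2 hi)]
    · exact sa2_cntS
    · intro j hj hji hm
      have h4 := (hmem j).1 hj
      have h5 := sa2_memE hm
      omega
  -- zero counts
  have oP : ∀ c, c ∉ P → P.count c = 0 := fun c hc => List.count_eq_zero.2 hc
  have oB : ∀ c, c ∉ B → B.count c = 0 := fun c hc => List.count_eq_zero.2 hc
  have oQ : ∀ c, c ∉ Q → Q.count c = 0 := fun c hc => List.count_eq_zero.2 hc
  have oE : ∀ c, c ∉ E → E.count c = 0 := fun c hc => List.count_eq_zero.2 hc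
  have hcount : ∀ c, W.count c = P.count c + (((B.count c + (Q.count c + (E.count c +
      if 4 = c then 1 else 0))) + if 6 + 6 * m = c then 1 else 0) +
      if 5 + 6 * m = c then 1 else 0) := by
    intro c
    rw [hw']
    simp only [List.count_append, List.count_cons, beq_iff_eq]
  -- the prefixes
  have pa : pre W (5 + 6 * m) = P := by
    rw [hw']
    exact MWK.pre_split (zP _ (Or.inr (Or.inl rfl))) _
  have p4 : pre W 4 = P ++ ((5 + 6 * m) :: (6 + 6 * m) :: (B ++ Q)) := by
    have e : W = (P ++ ((5 + 6 * m) :: (6 + 6 * m) :: (B ++ Q))) ++ 4 :: E := by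
      rw [hw']; simp
    rw [e]
    apply MWK.pre_split
    intro hm
    rcases List.mem_append.1 hm with h | h
    · exact zP _ (Or.inl rfl) h
    rcases List.mem_cons.1 h with h | h
    · omega
    rcases List.mem_cons.1 h with h | h
    · omega
    rcases List.mem_append.1 h with h | h
    · exact zB _ (Or.inl rfl) h
    · exact zQ _ (Or.inl rfl) h
  have pL : ∀ i, i ≤ m + 1 → pre W (9 + 6 * i) =
      P ++ ((5 + 6 * m) :: (6 + 6 * m) :: bd n (sg (N2 m).L) (sg (N2 m).C) i) := by
    intro i hi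
    have e : W = (P ++ [5 + 6 * m, 6 + 6 * m]) ++ (B ++ (Q ++ 4 :: E)) := by
      rw [hw']; simp
    have h3 : 9 + 6 * i ∉ P ++ [5 + 6 * m, 6 + 6 * m] := by
      intro hm
      rcases List.mem_append.1 hm with h | h
      · exact zP _ (Or.inr (Or.inr ⟨i, by omega⟩)) h
      · simp only [List.mem_cons, List.not_mem_nil, or_false] at h
        omega
    rw [e, MWK.pre_append h3]
    have h4 : pre (B ++ (Q ++ 4 :: E)) (9 + 6 * i) = bd n (sg (N2 m).L) (sg (N2 m).C) i := by
      rcases Nat.lt_or_ge i (m + 1) with h5 | h5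
      · rw [hB]
        exact _h2 n (N2 m).L (N2 m).C (m + 1) i h5 (by intro a _ b _ hab; simp only [N2] at hab; omega)
          (by intro a _ b _; simp only [N2]; omega) _
      · have h6 : i = m + 1 := by omega
        subst h6
        have e2 : B ++ (Q ++ 4 :: E) = B ++ ((9 + 6 * (m + 1)) :: ((6 + 6 * (m + 1)) ::
            τ2.flatMap (fun i => [N1.S i, N1.L i]) ++ 4 :: E)) := by
          rw [hQ]; rfl
        rw [e2, MWK.pre_split (zB _ (Or.inr (Or.inl rfl))), hB]
    rw [h4]
    simp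
  have pS : ∀ j, j ≤ m → pre W (8 + 6 * j) = P ++ ((5 + 6 * m) :: (6 + 6 * m) ::
      (B ++ (Q ++ 4 :: (pre τ j).flatMap (fun i => (N2 m).S i :: T2 m i)))) := by
    intro j hj
    have e : W = (P ++ ((5 + 6 * m) :: (6 + 6 * m) :: (B ++ (Q ++ [4])))) ++ (E ++ []) := by
      rw [hw']; simp
    have h3 : 8 + 6 * j ∉ P ++ ((5 + 6 * m) :: (6 + 6 * m) :: (B ++ (Q ++ [4]))) := by
      intro hm
      rcases List.mem_append.1 hm with h | h
      · exact zP _ (Or.inr (Or.inr ⟨j, by omega⟩)) h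
      rcases List.mem_cons.1 h with h | h
      · omega
      rcases List.mem_cons.1 h with h | h
      · omega
      rcases List.mem_append.1 h with h | h
      · exact zB _ (Or.inr (Or.inr ⟨j, by omega⟩)) h
      rcases List.mem_append.1 h with h | h
      · exact zQ _ (Or.inr (Or.inr (Or.inr (Or.inr ⟨j, by omega⟩)))) h
      · have := List.mem_singleton.1 h
        omega
    have h4 : pre (E ++ []) (8 + 6 * j) =
        (pre τ j).flatMap (fun i => (N2 m).S i :: T2 m i) := by
      rw [hE]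
      refine h1 (N2 m).S (T2 m) τ j ((hmem j).2 hj) ?_ ?_ []
      · intro i _ hij
        simp only [N2]
        omega
      · intro i hi hij hm
        have h5 := (hmem i).1 hi
        have h6 := sa2_memE (m := m) (i := i) (List.mem_cons_of_mem _ hm)
        simp only [N2] at h6
        omega
    rw [e, MWK.pre_append h3, h4]
    simp
  -- totals
  have tA : W.count (5 + 6 * m) = 1 := by
    rw [hcount, oP _ (zP _ (Or.inr (Or.inl rfl))), oB _ (zB _ (Or.inr (Or.inr ⟨m, by omega⟩))),
      oQ _ (zQ _ (Or.inr (Or.inl rfl))), oE _ (zE _ (Or.inr ⟨m, by omega⟩)),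
      if_neg (by omega), if_neg (by omega), if_pos rfl]
  have t4 : W.count 4 = 1 := by
    rw [hcount, oP _ (zP _ (Or.inl rfl)), oB _ (zB _ (Or.inl rfl)),
      oQ _ (zQ _ (Or.inl rfl)), oE _ (zE _ (Or.inl rfl)),
      if_pos rfl, if_neg (by omega), if_neg (by omega)]
  have tx : W.count (6 + 6 * m) = 2 := by
    rw [hcount, cP1, oB _ (zB _ (Or.inr (Or.inr ⟨m, by omega⟩))),
      oQ _ (zQ _ (Or.inr (Or.inr (Or.inl rfl)))), oE _ (zE _ (Or.inr ⟨m, by omega⟩)),
      if_neg (by omega), if_pos rfl, if_neg (by omega)]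
  have ty : W.count (6 + 6 * (m + 1)) = 2 := by
    rw [hcount, cP2, oB _ (zB _ (Or.inr (Or.inr ⟨m + 1, by omega⟩))),
      cQ1, oE _ (zE _ (Or.inr ⟨m + 1, by omega⟩)),
      if_neg (by omega), if_neg (by omega), if_neg (by omega)]
  have cE : ∀ i, i ≤ m + 1 → E.count (9 + 6 * i) = 1 := by
    intro i hi
    rcases Nat.lt_or_ge i (m + 1) with h | h
    · rw [hE]
      exact cEL τ hnd i ((hmem i).2 (by omega)) (fun j hj => (hmem j).1 hj)
    · have : i = m + 1 := by omega
      subst this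
      exact cEL'
  have cBQ : ∀ i, i ≤ m + 1 → B.count (9 + 6 * i) + Q.count (9 + 6 * i) = 1 := by
    intro i hi
    rcases Nat.lt_or_ge i (m + 1) with h | h
    · rw [oQ _ (zQ _ (Or.inr (Or.inr (Or.inr (Or.inl ⟨i, by omega, rfl⟩))))), hB,
        cBL (m + 1) i h]
    · have : i = m + 1 := by omega
      subst this
      rw [cQ2, oB _ (zB _ (Or.inr (Or.inl rfl)))]
  have pP : ∀ i, P.count (9 + 6 * i) = 0 := fun i => oP _ (zP _ (Or.inr (Or.inr ⟨i, by omega⟩)))
  have pC : ∀ i, P.count (10 + 6 * i) = 0 := fun i => oP _ (zP _ (Or.inr (Or.inr ⟨i, by omega⟩)))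
  have pS8 : ∀ i, P.count (8 + 6 * i) = 0 := fun i => oP _ (zP _ (Or.inr (Or.inr ⟨i, by omega⟩)))
  have tL : ∀ i, i ≤ m + 1 → W.count (9 + 6 * i) = 2 := by
    intro i hi
    have h5 := cBQ i hi
    have h6 := cE i hi
    rw [hcount, pP, h6, if_neg (by omega), if_neg (by omega), if_neg (by omega)]
    omega
  have qC : ∀ i, Q.count (10 + 6 * i) = 0 := fun i =>
    oQ _ (zQ _ (Or.inr (Or.inr (Or.inr (Or.inr ⟨i, by omega⟩)))))
  have bC : ∀ i, i < m + 1 → B.count (10 + 6 * i) = n + 1 := by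
    intro i hi
    rw [hB]
    exact cBC (m + 1) i hi
  have tC : ∀ i, i < m + 1 → W.count (10 + 6 * i) = n + 1 := by
    intro i hi
    rw [hcount, pC, bC i hi, qC, oE _ (zE _ (Or.inr ⟨i, by omega⟩)),
      if_neg (by omega), if_neg (by omega), if_neg (by omega)]
    omega
  have bS : ∀ i, B.count (8 + 6 * i) = 0 := fun i => oB _ (zB _ (Or.inr (Or.inr ⟨i, by omega⟩)))
  have qS : ∀ i, Q.count (8 + 6 * i) = 0 := fun i =>
    oQ _ (zQ _ (Or.inr (Or.inr (Or.inr (Or.inr ⟨i, by omega⟩)))))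
  have tS : ∀ i, i ≤ m → W.count (8 + 6 * i) = 1 := by
    intro i hi
    rw [hcount, pS8, bS, qS, cES i hi, if_neg (by omega), if_neg (by omega), if_neg (by omega)]
  have gP0 : P.count 4 = 0 := oP _ (zP _ (Or.inl rfl))
  -- the order `τ`
  have hpre_sub : ∀ j, ∀ i ∈ pre τ j, i ∈ τ := by
    intro j i hi
    exact (List.takeWhile_sublist _).subset hi
  have hpre_nd : ∀ j, (pre τ j).Nodup := by
    intro j
    exact hnd.sublist (List.takeWhile_sublist _)
  have hpre_self : ∀ j, j ∉ pre τ j := by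
    intro j hj
    have := List.mem_takeWhile_imp hj
    simp at this
  have hpre_as : ∀ i j, j ∈ τ → i ∈ pre τ j → j ∉ pre τ i := by
    intro i j hj hi hm
    obtain ⟨R, hR⟩ := MWK.mem_split hj
    have e : pre τ i = pre (pre τ j) i := by
      conv_lhs => rw [hR]
      rw [MWK.pre_append_mem hi]
    rw [e] at hm
    exact hpre_self j ((List.takeWhile_sublist _).subset hm)
  refine ⟨?_, ?_, ?_, ?_⟩
  · constructor
    · exact tA
    · exact t4
    · show (pre W (5 + 6 * m)).count 4 = 0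
      rw [pa]
      exact gP0
    · show 2 ≤ W.count (6 + 6 * m)
      rw [tx]
    · show 2 ≤ W.count (6 + 6 * (m + 1))
      rw [ty]
    · show (pre W (5 + 6 * m)).count (6 + 6 * m) = 1
      rw [pa]
      exact cP1
    · show (pre W (5 + 6 * m)).count (6 + 6 * (m + 1)) = 1
      rw [pa]
      exact cP2
    · show (pre W 4).count (6 + 6 * m) = W.count (6 + 6 * m)
      rw [p4, tx]
      simp only [List.count_append, List.count_cons, beq_iff_eq]
      rw [cP1, oB _ (zB _ (Or.inr (Or.inr ⟨m, by omega⟩))),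
        oQ _ (zQ _ (Or.inr (Or.inr (Or.inl rfl)))), if_pos trivial, if_neg (by omega)]
    · show (pre W 4).count (6 + 6 * (m + 1)) = W.count (6 + 6 * (m + 1))
      rw [p4, ty]
      simp only [List.count_append, List.count_cons, beq_iff_eq]
      rw [cP2, oB _ (zB _ (Or.inr (Or.inr ⟨m + 1, by omega⟩))), cQ1, if_neg (by omega),
        if_neg (by omega)]
    · intro i hi
      show 2 ≤ W.count (9 + 6 * i)
      rw [tL i hi]
    · intro i hi
      show (pre W (5 + 6 * m)).count (9 + 6 * i) = 0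
      rw [pa]
      exact pP i
    · intro i hi
      show (pre W 4).count (9 + 6 * i) = 1
      rw [p4]
      simp only [List.count_append, List.count_cons, beq_iff_eq]
      have h5 := cBQ i hi
      rw [pP, if_neg (by omega), if_neg (by omega)]
      omega
    · intro i hi
      show 2 ≤ W.count (10 + 6 * i)
      rw [tC i hi]
      omega
    · intro i hi
      show (pre W (5 + 6 * m)).count (10 + 6 * i) = 0
      rw [pa]
      exact pC i
    · intro i hi
      show (pre W 4).count (10 + 6 * i) = W.count (10 + 6 * i)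
      rw [p4, tC i hi]
      simp only [List.count_append, List.count_cons, beq_iff_eq]
      rw [pC, bC i hi, qC, if_neg (by omega), if_neg (by omega)]
      omega
    · intro i hi
      show (pre W (9 + 6 * i)).count (6 + 6 * m) = W.count (6 + 6 * m)
      rw [pL i hi, tx]
      simp only [List.count_append, List.count_cons, beq_iff_eq]
      rw [cP1, cB0, if_pos trivial, if_neg (by omega)]
    · intro i hi
      show (pre W (9 + 6 * i)).count (6 + 6 * (m + 1)) = 1
      rw [pL i hi]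
      simp only [List.count_append, List.count_cons, beq_iff_eq]
      rw [cP2, cB0, if_neg (by omega), if_neg (by omega)]
    · intro i hi j hj
      show (pre W (9 + 6 * j)).count (10 + 6 * i) = 0
      rw [pL j (by omega)]
      simp only [List.count_append, List.count_cons, beq_iff_eq]
      rw [pC, cBC0 j i hj, if_neg (by omega), if_neg (by omega)]
    · intro i hi j hij hj
      show (pre W (9 + 6 * j)).count (10 + 6 * i) = W.count (10 + 6 * i)
      rw [pL j hj, tC i hi]
      simp only [List.count_append, List.count_cons, beq_iff_eq]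
      rw [pC, cBC j i hij, if_neg (by omega), if_neg (by omega)]
      omega
  · constructor
    · intro i hi
      exact tS i hi
    · intro i hi
      show (pre W 4).count (8 + 6 * i) = 0
      rw [p4]
      simp only [List.count_append, List.count_cons, beq_iff_eq]
      rw [pS8, bS, qS, if_neg (by omega), if_neg (by omega)]
    · intro i j hi hj hij
      show (pre W (8 + 6 * i)).count (8 + 6 * j) = 0
      rw [pS i hi]
      simp only [List.count_append, List.count_cons, beq_iff_eq]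
      rw [pS8, bS, qS, if_neg (by omega), if_neg (by omega), if_neg (by omega), sa2_cnt0]
      intro k hk hm
      have h5 := sa2_memE hm
      have h6 := (hmem k).1 (hpre_sub i k hk)
      have h7 := hpre_as i j ((hmem j).2 hj) hij
      have h8 : k = j := by omega
      exact h7 (h8 ▸ hk)
    · intro i hi
      show (pre W (8 + 6 * i)).count (9 + 6 * i) = 1
      rw [pS i hi]
      simp only [List.count_append, List.count_cons, beq_iff_eq]
      have h5 := cBQ i (by omega)
      rw [pP, if_neg (by omega), if_neg (by omega), if_neg (by omega), sa2_cnt0]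
      · omega
      · intro k hk hm
        have h5 := sa2_memE hm
        have h6 := (hmem k).1 (hpre_sub i k hk)
        have h8 : k = i := by omega
        exact hpre_self i (h8 ▸ hk)
    · intro i j hi hj hij
      show (pre W (8 + 6 * j)).count (9 + 6 * i) = W.count (9 + 6 * i)
      rw [pS j hj, tL i (by omega)]
      simp only [List.count_append, List.count_cons, beq_iff_eq]
      have h5 := cBQ i (by omega)
      have h6 := cEL (pre τ j) (hpre_nd j) i hij (fun k hk => (hmem k).1 (hpre_sub j k hk))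
      rw [pP, if_neg (by omega), if_neg (by omega), if_neg (by omega), h6]
      omega
  · show (pre W (6 + 6 * (m + 1))).count (6 + 6 * m) = 1
    have e : W = ([0, 1, 2, 0] ++ (bd n (sg N1.L) (sg N1.C) m ++ [6 + 6 * m])) ++
        (6 + 6 * (m + 1)) :: ([1, 3] ++ (τ1.flatMap (fun i => [N1.S i, N1.L i]) ++
          ((5 + 6 * m) :: (6 + 6 * m) :: (B ++ (Q ++ 4 :: E))))) := by
      rw [hw', hP]
      unfold sP
      simp [N1]
    rw [e, MWK.pre_split]
    · rw [List.count_append, List.count_append,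
        sa2_bd_zero (by intro i hi; simp only [N1]; omega)]
      simp only [List.count_cons, List.count_nil, beq_iff_eq]
      split_ifs <;> omega
    · intro hm
      rcases List.mem_append.1 hm with h | h
      · simp only [List.mem_cons, List.not_mem_nil, or_false] at h
        omega
      rcases List.mem_append.1 h with h | h
      · obtain ⟨i, hi, h⟩ := sa2_mem_bd h
        simp only [N1] at h
        omega
      · have := List.mem_singleton.1 h
        omega
  · constructor
    · show W.count (6 + 6 * m) ≡ 2 [MOD n]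
      rw [tx]
    · show W.count (6 + 6 * (m + 1)) ≡ 2 [MOD n]
      rw [ty]
    · intro i hi
      show W.count (9 + 6 * i) ≡ 2 [MOD n]
      rw [tL i hi]
    · intro i hi
      show W.count (10 + 6 * i) ≡ 1 [MOD n]
      rw [tC i hi]
      unfold Nat.ModEq
      rw [Nat.add_mod_left]

end Pool.Agent.MWGQ.H1
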